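import Mathlib
import Pool.Agent.H.MP_4c8f29_co.A
import Pool.Agent.H.MP_4c8f29_co.B

namespace Pool.Agent.Results.MP_4c8f29_co.No
open Pool.Agent.H.MP_4c8f29_co

/-- The join `G + H`. -/
def join {V W : Type} (G : SimpleGraph V) (H : SimpleGraph W) : SimpleGraph (V ⊕ W) where
  Adj x y := match x, y with
    | Sum.inl a, Sum.inl b => G.Adj a b
    | Sum.inr a, Sum.inr b => H.Adj a b
    | Sum.inl _, Sum.inr _ => True
    | Sum.inr _, Sum.inl _ => True
  symm := ⟨by rintro (a | a) (b | b) h <;> first | exact h.symm | trivial⟩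
  loopless := ⟨by rintro (a | a) h <;> exact h.ne rfl⟩

/-- The disjunctive product `G * H`. -/
def disj {V W : Type} (G : SimpleGraph V) (H : SimpleGraph W) : SimpleGraph (V × W) where
  Adj x y := G.Adj x.1 y.1 ∨ H.Adj x.2 y.2
  symm := ⟨fun _ _ h => h.imp (·.symm) (·.symm)⟩
  loopless := ⟨fun _ h => h.elim (·.ne rfl) (·.ne rfl)⟩

/-- The lexicographic product. -/
def lex {V W : Type} (G : SimpleGraph V) (H : SimpleGraph W) : SimpleGraph (V × W) where
  Adj x y := G.Adj x.1 y.1 ∨ (x.1 = y.1 ∧ H.Adj x.2 y.2)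
  symm := ⟨fun _ _ h => h.imp (·.symm) (fun h => ⟨h.1.symm, h.2.symm⟩)⟩
  loopless := ⟨fun _ h => h.elim (·.ne rfl) (·.2.ne rfl)⟩

/-- Semiring-homomorphic graph invariants. -/
structure IsSHI (η : ∀ (V : Type) [Finite V], SimpleGraph V → ℝ) : Prop where
  nonneg : ∀ (V : Type) [Finite V] (G : SimpleGraph V), 0 ≤ η V G
  one : η (Fin 1) ⊤ = 1
  mono : ∀ (V W : Type) [Finite V] [Finite W] (G : SimpleGraph V) (H : SimpleGraph W),
    Nonempty (G →g H) → η V G ≤ η W H
  add : ∀ (V W : Type) [Finite V] [Finite W] (G : SimpleGraph V) (H : SimpleGraph W),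
    η (V ⊕ W) (join G H) = η V G + η W H
  mul : ∀ (V W : Type) [Finite V] [Finite W] (G : SimpleGraph V) (H : SimpleGraph W),
    η (V × W) (disj G H) = η V G * η W H

structure Gr : Type 1 where
  V : Type
  fin : Finite V
  G : SimpleGraph V

def Hm (A B : Gr) : Prop := ∃ f : A.V → B.V, ∀ x y, A.G.Adj x y → B.G.Adj (f x) (f y)

theorem Hm.refl (A : Gr) : Hm A A := ⟨id, fun _ _ h => h⟩

theorem Hm.trans {A B C : Gr} (h1 : Hm A B) (h2 : Hm B C) : Hm A C := by
  obtain ⟨f, hf⟩ := h1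
  obtain ⟨g, hg⟩ := h2
  exact ⟨g ∘ f, fun x y h => hg _ _ (hf _ _ h)⟩

def gadd (A B : Gr) : Gr := ⟨A.V ⊕ B.V, by have := A.fin; have := B.fin; infer_instance, join A.G B.G⟩
def gmul (A B : Gr) : Gr := ⟨A.V × B.V, by have := A.fin; have := B.fin; infer_instance, disj A.G B.G⟩
def KK (n : ℕ) : Gr := ⟨Fin n, inferInstance, ⊤⟩
def gpow (A : Gr) (n : ℕ) : Gr := ⟨Fin n → A.V, by have := A.fin; infer_instance,
  { Adj := fun x y => ∃ i, A.G.Adj (x i) (y i)
    symm := ⟨fun _ _ h => h.imp fun _ h => h.symm⟩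
    loopless := ⟨fun _ h => h.elim fun _ h => h.ne rfl⟩ }⟩

theorem Hm.add {A B C D : Gr} (h1 : Hm A B) (h2 : Hm C D) : Hm (gadd A C) (gadd B D) := by
  obtain ⟨f, hf⟩ := h1
  obtain ⟨g, hg⟩ := h2
  refine ⟨Sum.map f g, ?_⟩
  rintro (a | a) (b | b) h
  exacts [hf _ _ h, trivial, trivial, hg _ _ h]

theorem Hm.mul {A B C D : Gr} (h1 : Hm A B) (h2 : Hm C D) : Hm (gmul A C) (gmul B D) := by
  obtain ⟨f, hf⟩ := h1
  obtain ⟨g, hg⟩ := h2
  exact ⟨Prod.map f g, fun x y h => h.imp (hf _ _) (hg _ _)⟩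

def st : Setoid Gr := ⟨fun A B => Hm A B ∧ Hm B A,
  ⟨fun A => ⟨Hm.refl A, Hm.refl A⟩, fun h => h.symm, fun h1 h2 => ⟨h1.1.trans h2.1, h2.2.trans h1.2⟩⟩⟩

def SS : Type 1 := Quotient st

def mk (A : Gr) : SS := Quotient.mk st A

theorem mk_eq {A B : Gr} (h1 : Hm A B) (h2 : Hm B A) : mk A = mk B := Quotient.sound ⟨h1, h2⟩

theorem ind {p : SS → Prop} (h : ∀ A, p (mk A)) (a : SS) : p a := Quotient.ind (s := st) h a

instance : Add SS := ⟨Quotient.map₂ (sa := st) (sb := st) (sc := st) gadd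
  fun _ _ h1 _ _ h2 => ⟨h1.1.add h2.1, h1.2.add h2.2⟩⟩
instance : Mul SS := ⟨Quotient.map₂ (sa := st) (sb := st) (sc := st) gmul
  fun _ _ h1 _ _ h2 => ⟨h1.1.mul h2.1, h1.2.mul h2.2⟩⟩
instance : Zero SS := ⟨mk (KK 0)⟩
instance : One SS := ⟨mk (KK 1)⟩

theorem mk_add (A B : Gr) : mk A + mk B = mk (gadd A B) := rfl
theorem mk_mul (A B : Gr) : mk A * mk B = mk (gmul A B) := rfl

theorem hm_zero (A : Gr) : Hm (KK 0) A := ⟨fun x => Fin.elim0 x, fun x => Fin.elim0 x⟩

theorem add_comm' (a b : SS) : a + b = b + a := by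
  induction a using ind
  induction b using ind
  refine mk_eq ⟨Sum.swap, ?_⟩ ⟨Sum.swap, ?_⟩ <;> rintro (a | a) (b | b) h <;> exact h

theorem mul_comm' (a b : SS) : a * b = b * a := by
  induction a using ind
  induction b using ind
  exact mk_eq ⟨Prod.swap, fun x y h => Or.symm h⟩ ⟨Prod.swap, fun x y h => Or.symm h⟩

theorem zero_add' (a : SS) : 0 + a = a := by
  induction a using ind
  refine mk_eq ⟨Sum.elim (fun x => Fin.elim0 x) id, ?_⟩ ⟨Sum.inr, fun x y h => h⟩
  rintro (a | a) (b | b) h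
  exacts [Fin.elim0 a, Fin.elim0 a, Fin.elim0 b, h]

theorem one_mul' (a : SS) : 1 * a = a := by
  induction a using ind
  refine mk_eq ⟨Prod.snd, fun x y h => ?_⟩ ⟨fun x => ((0 : Fin 1), x), fun x y h => Or.inr h⟩
  rcases h with h | h
  · exact absurd (Subsingleton.elim (α := Fin 1) _ _) h.ne
  · exact h

theorem zero_mul' (a : SS) : 0 * a = 0 := by
  induction a using ind
  exact mk_eq ⟨Prod.fst, fun x => Fin.elim0 x.1⟩ (hm_zero _)

theorem left_distrib' (a b c : SS) : a * (b + c) = a * b + a * c := by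
  induction a using ind
  induction b using ind
  induction c using ind
  refine mk_eq ⟨Equiv.prodSumDistrib _ _ _, ?_⟩ ⟨(Equiv.prodSumDistrib _ _ _).symm, ?_⟩
  · rintro ⟨x, a | a⟩ ⟨y, b | b⟩ h
    exacts [h, trivial, trivial, h]
  · rintro (a | a) (b | b) h
    exacts [h, Or.inr trivial, Or.inr trivial, h]

instance : CommSemiring SS where
  add_assoc a b c := by
    induction a using ind
    induction b using ind
    induction c using ind
    refine mk_eq ⟨Equiv.sumAssoc _ _ _, ?_⟩ ⟨(Equiv.sumAssoc _ _ _).symm, ?_⟩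
    · rintro ((a | a) | a) ((b | b) | b) h <;> first | exact h | trivial
    · rintro (a | a | a) (b | b | b) h <;> first | exact h | trivial
  zero_add := zero_add'
  add_zero a := by rw [add_comm', zero_add']
  add_comm := add_comm'
  nsmul := nsmulRec
  mul_assoc a b c := by
    induction a using ind
    induction b using ind
    induction c using ind
    exact mk_eq ⟨Equiv.prodAssoc _ _ _, fun x y h => or_assoc.1 h⟩
      ⟨(Equiv.prodAssoc _ _ _).symm, fun x y h => or_assoc.2 h⟩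
  one_mul := one_mul'
  mul_one a := by rw [mul_comm', one_mul']
  mul_comm := mul_comm'
  zero_mul := zero_mul'
  mul_zero a := by rw [mul_comm', zero_mul']
  left_distrib := left_distrib'
  right_distrib a b c := by rw [mul_comm', left_distrib', mul_comm' c, mul_comm' c]

def LE : SS → SS → Prop := Quotient.lift₂ (s₁ := st) (s₂ := st) Hm fun _ _ _ _ h1 h2 =>
  propext ⟨fun h => h1.2.trans (h.trans h2.1), fun h => h1.1.trans (h.trans h2.2)⟩

theorem LE_mk (A B : Gr) : LE (mk A) (mk B) ↔ Hm A B := Iff.rfl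

theorem cast_eq (n : ℕ) : (n : SS) = mk (KK n) := by
  induction n with
  | zero => rfl
  | succ n ih =>
    rw [Nat.cast_succ, ih]
    refine mk_eq ⟨finSumFinEquiv (m := n) (n := 1), fun x y h => ?_⟩
      ⟨(finSumFinEquiv (m := n) (n := 1)).symm, fun x y h => ?_⟩
    · exact fun e => h.ne (finSumFinEquiv.injective e)
    · have h2 : (finSumFinEquiv (m := n) (n := 1)).symm x ≠ finSumFinEquiv.symm y :=
        fun e => h.ne (finSumFinEquiv.symm.injective e)
      revert h2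
      rcases (finSumFinEquiv (m := n) (n := 1)).symm x with a | a <;>
        rcases (finSumFinEquiv (m := n) (n := 1)).symm y with b | b <;> intro h2
      · exact fun e => h2 (congrArg _ e)
      · trivial
      · trivial
      · exact fun e => h2 (congrArg _ e)

theorem pow_eq (A : Gr) (n : ℕ) : mk A ^ n = mk (gpow A n) := by
  induction n with
  | zero =>
    rw [pow_zero]
    refine mk_eq ⟨fun _ i => Fin.elim0 i, fun x y h => ?_⟩ ⟨fun _ => (0 : Fin 1), fun x y h => ?_⟩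
    · exact absurd (Subsingleton.elim (α := Fin 1) _ _) h.ne
    · exact h.elim fun i => Fin.elim0 i
  | succ n ih =>
    rw [pow_succ, ih]
    refine mk_eq ⟨fun p => Fin.cons p.2 p.1, fun x y h => ?_⟩
      ⟨fun x => (Fin.tail x, x 0), fun x y h => ?_⟩
    · rcases h with ⟨i, h⟩ | h
      · exact ⟨i.succ, h⟩
      · exact ⟨0, h⟩
    · obtain ⟨i, h⟩ := h
      revert h
      refine Fin.cases ?_ ?_ i
      · exact fun h => Or.inr h
      · exact fun j h => Or.inl ⟨j, h⟩

theorem good : Good LE where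
  refl a := by induction a using ind; exact Hm.refl _
  trans a b c := by
    induction a using ind; induction b using ind; induction c using ind
    exact Hm.trans
  add a b c := by
    induction a using ind; induction b using ind; induction c using ind
    exact fun h => Hm.add h (Hm.refl _)
  mul a b c := by
    induction a using ind; induction b using ind; induction c using ind
    exact fun h => Hm.mul h (Hm.refl _)
  zero a := by induction a using ind; exact hm_zero _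
  arch a := by
    induction a using ind with | _ A =>
    have := A.fin
    obtain ⟨n, ⟨e⟩⟩ := Finite.exists_equiv_fin A.V
    refine ⟨n, ?_⟩
    rw [cast_eq]
    exact ⟨e, fun x y h e' => h.ne (e.injective e')⟩
  nz a := by
    induction a using ind with | _ A =>
    rcases isEmpty_or_nonempty A.V with h | ⟨⟨v⟩⟩
    · exact Or.inl (mk_eq ⟨fun x => h.elim x, fun x => h.elim x⟩ (hm_zero _))
    · exact Or.inr ⟨fun _ => v, fun x y h => absurd (Subsingleton.elim (α := Fin 1) _ _) h.ne⟩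
  proper n := by
    rw [← Nat.cast_succ, cast_eq, cast_eq]
    rintro ⟨f, hf⟩
    have : Function.Injective f := fun x y e => by
      by_contra h
      exact (hf x y h).ne e
    have := Fintype.card_le_of_injective (α := Fin (n + 1)) (β := Fin n) f this
    simp at this

def gC : Gr := ⟨Fin 5, inferInstance, SimpleGraph.cycleGraph 5⟩
def gB (d : ℕ) : Gr := ⟨Fin 5 × Fin d, inferInstance, lex (SimpleGraph.cycleGraph 5) ⊤⟩

theorem noasym (d p q : ℕ) (hd : d = 5 ^ 100) (hp : (p : ℝ) = 199 * d) (hq : (q : ℝ) = 200)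
    (n : ℕ) (s : SS) :
    ¬ LE ((n : SS) + 1 + s * (p * mk gC)) (n + s * (q * mk (gB d))) := by
  intro h
  have hd0 : 0 < d := by rw [hd]; positivity
  have hq0 : 0 < q := by
    have : (0 : ℝ) < q := by rw [hq]; norm_num
    exact_mod_cast this
  have hY : LE 1 ((q : SS) * mk (gB d)) := by
    rw [cast_eq]
    exact ⟨fun _ => ((⟨0, hq0⟩ : Fin q), ((0 : Fin 5), (⟨0, hd0⟩ : Fin d))),
      fun x y h => absurd (Subsingleton.elim (α := Fin 1) _ _) h.ne⟩
  obtain ⟨r, hr⟩ := good.asym _ _ s n hY h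
  obtain ⟨m, hm⟩ : ∃ m : ℕ, (m : ℝ) = 1000 * n + 1 := ⟨1000 * n + 1, by push_cast; rfl⟩
  have key : ∀ K k : ℕ, k = 100 * K → (1.004 : ℝ) ^ k ≤ 2 * r := by
    intro K k hk
    have h1 := hr m k
    have h2 : LE (((m * p) ^ k : ℕ) * mk gC ^ k) ((r * ((m + n) * q) ^ k : ℕ) * mk (gB d) ^ k) := by
      refine good.of_eq h1 ?_ ?_
      · push_cast; ring
      · push_cast; simp only [mul_pow]; ring
    rw [cast_eq, cast_eq, pow_eq, pow_eq] at h2
    obtain ⟨f, hf⟩ := h2
    have h3 := count K _ _ d _ hd hk f hf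
    push_cast at h3
    have hd' : (0 : ℝ) < d := by exact_mod_cast hd0
    have hn : (0 : ℝ) ≤ n := by positivity
    rw [← mul_pow, mul_assoc 2, mul_assoc (r : ℝ), ← mul_pow, ← mul_assoc 2, hm, hp, hq] at h3
    have p : (0 : ℝ) < ((1000 * n + 1 + n) * 200 * (7.42 * d)) ^ k := by positivity
    refine le_of_mul_le_mul_right (le_trans ?_ h3) p
    rw [← mul_pow]
    refine pow_le_pow_left₀ (by positivity) ?_ _
    nlinarith [mul_nonneg hn hd'.le]
  obtain ⟨K, hK⟩ := pow_unbounded_of_one_lt (2 * r : ℝ) (show (1 : ℝ) < 1.004 ^ 100 by norm_num)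
  rw [← pow_mul] at hK
  linarith [key K _ rfl]

theorem result : ∃ η : ∀ (V : Type) [Finite V], SimpleGraph V → ℝ, IsSHI η ∧ ∃ d : ℕ,
    η (Fin 5 × Fin d) (lex (SimpleGraph.cycleGraph 5) ⊤) <
      η (Fin 5) (SimpleGraph.cycleGraph 5) * η (Fin d) ⊤ := by
  obtain ⟨d, hd⟩ : ∃ d : ℕ, d = 5 ^ 100 := ⟨_, rfl⟩
  obtain ⟨p, hp⟩ : ∃ p : ℕ, (p : ℝ) = 199 * d := ⟨199 * d, by push_cast; rfl⟩
  obtain ⟨q, hq⟩ : ∃ q : ℕ, (q : ℝ) = 200 := ⟨200, by push_cast; rfl⟩
  obtain ⟨φ, h0, hn, hm, ha, hmul⟩ := (good.ext _ _ (noasym d p q hd hp hq)).exists_phi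
  have hm' : ∀ a b, LE a b → φ a ≤ φ b := fun a b h => hm a b ⟨0, by simpa using h⟩
  refine ⟨fun V hV G => φ (mk ⟨V, hV, G⟩), ⟨fun _ _ _ => h0 _, ?_, ?_, ?_, ?_⟩, d, ?_⟩
  · have := hn 1
    rw [cast_eq, Nat.cast_one] at this
    exact this
  · rintro V W _ _ G H ⟨f⟩
    exact hm' _ _ ⟨f, fun x y h => f.map_adj h⟩
  · intro V W _ _ G H
    exact ha (mk ⟨V, _, G⟩) (mk ⟨W, _, H⟩)
  · intro V W _ _ G H
    exact hmul (mk ⟨V, _, G⟩) (mk ⟨W, _, H⟩)
  · have h1 := hm ((q : SS) * mk (gB d)) ((p : SS) * mk gC)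
      ⟨1, good.of_eq (good.refl ((q : SS) * mk (gB d) + (p : SS) * mk gC))
        (by ring) (by ring)⟩
    rw [hmul, hmul, hn, hn, hp, hq] at h1
    have h2 : φ 1 ≤ φ (mk gC) := hm' _ _ ⟨fun _ => (0 : Fin 5),
      fun x y h => absurd (Subsingleton.elim (α := Fin 1) _ _) h.ne⟩
    have h3 := hn 1
    have h4 := hn d
    rw [cast_eq] at h4
    rw [Nat.cast_one, Nat.cast_one] at h3
    have hd' : (0 : ℝ) < d := by rw [hd]; positivity
    show φ (mk (gB d)) < φ (mk gC) * φ (mk (KK d))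
    rw [h4]
    nlinarith

end Pool.Agent.Results.MP_4c8f29_co.No
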